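import Pool.Agent.TH221.Weak
import Pool.Agent.K7.H21.PD_MO1

/-!
The chain rule for the composition of a `C¹` function with a continuous Sobolev function, and
gluing of weak gradients.
-/

set_option autoImplicit false

open MeasureTheory Set Filter Topology Metric
open scoped ENNReal NNReal ContDiff Manifold

namespace Pool.Agent.V8H54.CN

open Pool.Agent.TH221

variable {n : ℕ}

/-- smooth cut-off functions -/
lemma cutoff {A U : Set (Eu n)} (hA : IsCompact A) (hU : IsOpen U) (hAU : A ⊆ U) :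
    ∃ χ : Eu n → ℝ, ContDiff ℝ ∞ χ ∧ HasCompactSupport χ ∧ tsupport χ ⊆ U ∧
      (∀ᶠ x in 𝓝ˢ A, χ x = 1) ∧ ∀ x, χ x ∈ Icc (0:ℝ) 1 := by
  obtain ⟨L, hL, hAL, hLU⟩ := exists_compact_between hA hU hAU
  have hd : Disjoint (interior L)ᶜ A := disjoint_compl_left_iff_subset.2 hAL
  obtain ⟨f, h0, h1, hf⟩ := exists_contMDiffMap_zero_one_nhds_of_isClosed (n := (⊤ : ℕ∞))
    (modelWithCornersSelf ℝ (Eu n)) (M := Eu n) (isOpen_interior.isClosed_compl) hA.isClosed hd
  have hsupp : tsupport f ⊆ interior L := by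
    intro x hx
    by_contra hxL
    have h2 : ∀ᶠ y in 𝓝 x, f y = 0 := (eventually_nhdsSet_iff_forall.1 h0) x hxL
    exact (notMem_tsupport_iff_eventuallyEq.2 h2) hx
  refine ⟨f, f.contMDiff.contDiff, ?_, (hsupp.trans interior_subset).trans hLU, h1, hf⟩
  exact HasCompactSupport.of_support_subset_isCompact hL
    ((subset_tsupport f).trans (hsupp.trans interior_subset))

open Pool.Agent.K7.H21.PDMO in
/-- mollification and weak directional derivatives -/
lemma moll_weak {W H : Eu n → ℝ} (hW : Integrable W) (v : Eu n)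
    (hwd : ∀ ζ : Eu n → ℝ, ContDiff ℝ ∞ ζ → HasCompactSupport ζ →
      ∫ x, W x * fderiv ℝ ζ x v = - ∫ x, ζ x * H x) (b : ContDiffBump (0 : Eu n)) :
    ContDiff ℝ ∞ (fun x => ∫ y, b.normed volume (x - y) * W y) ∧
    ∀ x, fderiv ℝ (fun x => ∫ y, b.normed volume (x - y) * W y) x v =
      ∫ y, b.normed volume (x - y) * H y := by
  have hb : ContDiff ℝ ∞ (b.normed (volume : Measure (Eu n))) := b.contDiff_normed
  have hbc : HasCompactSupport (b.normed (volume : Measure (Eu n))) := b.hasCompactSupport_normed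
  have hb1 : ContDiff ℝ 1 (b.normed (volume : Measure (Eu n))) := b.contDiff_normed
  constructor
  · rw [conv_eq]
    exact hbc.contDiff_convolution_right _ hW.locallyIntegrable hb
  · intro x
    rw [conv_eq, (hbc.hasFDerivAt_convolution_right Lm hW.locallyIntegrable hb1 x).fderiv,
      convolution_precompR_apply Lm hW.locallyIntegrable (hbc.fderiv (𝕜 := ℝ))
        (hb1.continuous_fderiv one_ne_zero) x v, convolution_def]
    have h1 := hwd (fun y => b.normed volume (x - y)) (hb.comp (contDiff_const.sub contDiff_id))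
      (hbc.comp_homeomorph (Homeomorph.subLeft x))
    have h2 : ∀ y, fderiv ℝ (fun y => b.normed volume (x - y)) y v =
        - fderiv ℝ (b.normed volume) (x - y) v := by
      intro y
      have h3 : HasFDerivAt (b.normed (volume : Measure (Eu n)))
        (fderiv ℝ (b.normed volume) (x - y)) (x - y) :=
        (hb.differentiable (by simp)).differentiableAt.hasFDerivAt
      have h4 : HasFDerivAt (fun z : Eu n => x - z) (-ContinuousLinearMap.id ℝ (Eu n)) y :=
        (hasFDerivAt_id y).const_sub x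
      rw [show (fun y => b.normed (volume : Measure (Eu n)) (x - y)) =
        (b.normed (volume : Measure (Eu n))) ∘ (fun z => x - z) from rfl, (h3.comp y h4).fderiv]
      simp
    simp only [h2] at h1
    rw [show (∫ t, (Lm (W t)) ((fderiv ℝ (b.normed (volume : Measure (Eu n))) (x - t)) v)) =
      - ∫ x_1, W x_1 * -(fderiv ℝ (b.normed volume) (x - x_1)) v by
        rw [← integral_neg]
        refine integral_congr_ae (Eventually.of_forall fun y => ?_)
        simp, h1, neg_neg]

/-- bumps with radii tending to zero -/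
noncomputable def bmp (n k : ℕ) : ContDiffBump (0 : Eu n) where
  rIn := 1 / (2 * ((k : ℝ) + 1))
  rOut := 1 / ((k : ℝ) + 1)
  rIn_pos := by positivity
  rIn_lt_rOut := by
    apply one_div_lt_one_div_of_lt (by positivity)
    have : (0:ℝ) ≤ k := Nat.cast_nonneg k
    linarith

lemma bmp_tendsto (n : ℕ) : Tendsto (fun k => (bmp n k).rOut) atTop (𝓝 0) :=
  tendsto_one_div_add_atTop_nhds_zero_nat

open Pool.Agent.K7.H21.PDMO in
/-- the chain rule in one direction, for functions with compact support -/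
lemma chain_global {W H : Eu n → ℝ} (hW : Continuous W) (hWc : HasCompactSupport W)
    (hH : Integrable H) (v : Eu n)
    (hwd : ∀ ζ : Eu n → ℝ, ContDiff ℝ ∞ ζ → HasCompactSupport ζ →
      ∫ x, W x * fderiv ℝ ζ x v = - ∫ x, ζ x * H x)
    {ψ : ℝ → ℝ} (hψ : ContDiff ℝ 1 ψ) (hb : ∀ t, |deriv ψ t| ≤ 1)
    {φ : Eu n → ℝ} (hφ : ContDiff ℝ ∞ φ) (hc : HasCompactSupport φ) :
    ∫ x, ψ (W x) * fderiv ℝ φ x v = - ∫ x, φ x * (deriv ψ (W x) * H x) := by
  have hWi : Integrable W := hW.integrable_of_hasCompactSupport hWc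
  set F : ℕ → Eu n → ℝ := fun k x => ∫ y, (bmp n k).normed volume (x - y) * W y with hF
  set S : ℕ → Eu n → ℝ := fun k x => ∫ y, (bmp n k).normed volume (x - y) * H y with hS
  have hFs : ∀ k, ContDiff ℝ ∞ (F k) := fun k => (moll_weak hWi v hwd (bmp n k)).1
  have hFd : ∀ k x, fderiv ℝ (F k) x v = S k x := fun k => (moll_weak hWi v hwd (bmp n k)).2
  have hφd : Continuous (fun x => fderiv ℝ φ x v) := (test_fderiv hφ hc v).1
  have hφdc : HasCompactSupport (fun x => fderiv ℝ φ x v) := (test_fderiv hφ hc v).2.1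
  have hψd : Continuous (deriv ψ) := hψ.continuous_deriv le_rfl
  have hψL : ∀ s t, |ψ s - ψ t| ≤ |s - t| := by
    have h1 : LipschitzWith 1 ψ := lipschitzWith_of_nnnorm_deriv_le
      (hψ.differentiable one_ne_zero) fun t => by
        rw [← NNReal.coe_le_coe, coe_nnnorm, Real.norm_eq_abs]
        exact hb t
    intro s t
    have := h1.dist_le_mul s t
    simpa [Real.dist_eq] using this
  obtain ⟨M, hM⟩ := hWc.exists_bound_of_continuous hW
  have hM0 : 0 ≤ M := (norm_nonneg _).trans (hM 0)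
  have hFb : ∀ k x, |F k x| ≤ 3 * M := by
    intro k x
    have h1 := T_near (bmp n k) hW (x := x) (ε := 2 * M) fun y _ => by
      rw [dist_eq_norm]
      have := norm_sub_le (W y) (W x)
      linarith [hM y, hM x]
    have h2 : |F k x - W x| ≤ 2 * M := h1
    have h3 := hM x
    rw [Real.norm_eq_abs] at h3
    have := abs_add_le (F k x - W x) (W x)
    rw [sub_add_cancel] at this
    linarith
  have hFt : ∀ x, Tendsto (fun k => F k x) atTop (𝓝 (W x)) := by
    intro x
    have h1 := ContDiffBump.convolution_tendsto_right_of_continuous (μ := (volume : Measure (Eu n)))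
      (bmp_tendsto n) hW x
    refine h1.congr fun k => ?_
    rw [convolution_eq_swap]
    rfl
  have hSi : ∀ k, Integrable (S k) := fun k => T_int (bmp n k) hH
  -- the identity for the approximations
  have key : ∀ k, ∫ x, ψ (F k x) * fderiv ℝ φ x v =
      - ∫ x, φ x * (deriv ψ (F k x) * S k x) := by
    intro k
    have hd : ∀ x, fderiv ℝ (fun x => ψ (F k x)) x v = deriv ψ (F k x) * S k x := by
      intro x
      have h1 : HasFDerivAt (F k) (fderiv ℝ (F k) x) x :=
        ((hFs k).differentiable (by simp)).differentiableAt.hasFDerivAt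
      have h2 : HasDerivAt ψ (deriv ψ (F k x)) (F k x) :=
        (hψ.differentiable one_ne_zero).differentiableAt.hasDerivAt
      rw [show fderiv ℝ (fun x => ψ (F k x)) x = _ from (h2.comp_hasFDerivAt x h1).fderiv]
      simp [hFd]
    have hcF : Continuous (fun x => deriv ψ (F k x) * S k x) := by
      refine (hψd.comp (hFs k).continuous).mul ?_
      have h1 : Continuous (fun x => fderiv ℝ (F k) x v) :=
        ((hFs k).continuous_fderiv (by simp)).clm_apply continuous_const
      exact h1.congr (hFd k)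
    rw [integral_mul_fderiv_eq_neg_fderiv_mul_of_integrable (f := fun x => ψ (F k x)) (g := φ)]
    · congr 1
      refine integral_congr_ae (Eventually.of_forall fun x => ?_)
      simp only [hd]
      ring
    · simp only [hd]
      exact (hcF.mul hφ.continuous).integrable_of_hasCompactSupport hc.mul_left
    · exact ((hψ.continuous.comp (hFs k).continuous).mul hφd).integrable_of_hasCompactSupport
        hφdc.mul_left
    · exact ((hψ.continuous.comp (hFs k).continuous).mul
        hφ.continuous).integrable_of_hasCompactSupport hc.mul_left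
    · intro x _
      exact ((hψ.differentiable one_ne_zero).differentiableAt).comp x
        ((hFs k).differentiable (by simp)).differentiableAt
    · intro x _
      exact (hφ.differentiable (by simp)).differentiableAt
  -- the limits
  have lim1 : Tendsto (fun k => ∫ x, ψ (F k x) * fderiv ℝ φ x v) atTop
      (𝓝 (∫ x, ψ (W x) * fderiv ℝ φ x v)) := by
    refine tendsto_integral_of_dominated_convergence
      (fun x => (|ψ 0| + 3 * M) * |fderiv ℝ φ x v|) ?_ ?_ ?_ ?_
    · intro k
      exact ((hψ.continuous.comp (hFs k).continuous).mul hφd).aestronglyMeasurable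
    · exact (hφd.integrable_of_hasCompactSupport hφdc).abs.const_mul _
    · intro k
      refine Eventually.of_forall fun x => ?_
      rw [Real.norm_eq_abs, abs_mul]
      refine mul_le_mul_of_nonneg_right ?_ (abs_nonneg _)
      have h1 := hψL (F k x) 0
      rw [sub_zero] at h1
      have h2 := abs_add_le (ψ (F k x) - ψ 0) (ψ 0)
      rw [sub_add_cancel] at h2
      linarith [hFb k x]
    · refine Eventually.of_forall fun x => ?_
      exact ((hψ.continuous.tendsto _).comp (hFt x)).mul_const _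
  have hφb : ∃ C, ∀ x, |φ x| ≤ C := by
    obtain ⟨C, hC⟩ := hc.exists_bound_of_continuous hφ.continuous
    exact ⟨C, fun x => by simpa using hC x⟩
  obtain ⟨C, hC⟩ := hφb
  have hC0 : 0 ≤ C := (abs_nonneg _).trans (hC 0)
  have hm1 : ∀ k, AEStronglyMeasurable (fun x => φ x * deriv ψ (F k x))
      (volume : Measure (Eu n)) := fun k =>
    (hφ.continuous.mul (hψd.comp (hFs k).continuous)).aestronglyMeasurable
  have hb1 : ∀ k x, ‖φ x * deriv ψ (F k x)‖ ≤ C := by
    intro k x
    rw [Real.norm_eq_abs, abs_mul]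
    calc |φ x| * |deriv ψ (F k x)| ≤ C * 1 :=
          mul_le_mul (hC x) (hb _) (abs_nonneg _) hC0
      _ = C := mul_one C
  have lim2 : Tendsto (fun k => ∫ x, (φ x * deriv ψ (F k x)) * (S k x - H x)) atTop (𝓝 0) := by
    have h0 := mo1 n H (bmp n) hH (bmp_tendsto n)
    have h1 : Tendsto (fun k => C * ∫ x, |S k x - H x|) atTop (𝓝 0) := by
      simpa using h0.const_mul C
    refine squeeze_zero_norm (fun k => ?_) h1
    refine (norm_integral_le_integral_norm _).trans ?_
    rw [← integral_const_mul]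
    refine integral_mono ?_ (((hSi k).sub hH).abs.const_mul C) fun x => ?_
    · exact (((hSi k).sub hH).bdd_mul (hm1 k) (Eventually.of_forall (hb1 k))).norm
    · show ‖φ x * deriv ψ (F k x) * (S k x - H x)‖ ≤ C * |S k x - H x|
      rw [norm_mul, Real.norm_eq_abs (S k x - H x)]
      exact mul_le_mul_of_nonneg_right (hb1 k x) (abs_nonneg _)
  have lim3 : Tendsto (fun k => ∫ x, (φ x * deriv ψ (F k x)) * H x) atTop
      (𝓝 (∫ x, (φ x * deriv ψ (W x)) * H x)) := by
    refine tendsto_integral_of_dominated_convergence (fun x => C * |H x|) ?_ ?_ ?_ ?_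
    · intro k
      exact (hm1 k).mul hH.aestronglyMeasurable
    · exact hH.abs.const_mul C
    · intro k
      refine Eventually.of_forall fun x => ?_
      rw [norm_mul, Real.norm_eq_abs (H x)]
      exact mul_le_mul_of_nonneg_right (hb1 k x) (abs_nonneg _)
    · refine Eventually.of_forall fun x => ?_
      exact (((hψd.tendsto _).comp (hFt x)).const_mul _).mul_const _
  have lim4 := lim2.add lim3
  have h5 : ∀ k, (∫ x, (φ x * deriv ψ (F k x)) * (S k x - H x)) +
      ∫ x, (φ x * deriv ψ (F k x)) * H x = ∫ x, φ x * (deriv ψ (F k x) * S k x) := by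
    intro k
    have i1 : Integrable (fun x => φ x * deriv ψ (F k x) * (S k x - H x)) :=
      ((hSi k).sub hH).bdd_mul (hm1 k) (Eventually.of_forall (hb1 k))
    have i2 : Integrable (fun x => φ x * deriv ψ (F k x) * H x) :=
      hH.bdd_mul (hm1 k) (Eventually.of_forall (hb1 k))
    rw [← integral_add i1 i2]
    refine integral_congr_ae (Eventually.of_forall fun x => ?_)
    simp only
    ring
  simp only [h5, zero_add] at lim4
  have h6 := tendsto_nhds_unique lim1 ((lim4.neg).congr fun k => (key k).symm)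
  rw [h6]
  congr 1
  refine integral_congr_ae (Eventually.of_forall fun x => ?_)
  simp only
  ring

lemma fderiv_zero_of_notMem {φ : Eu n → ℝ} {x : Eu n} (hx : x ∉ tsupport φ) :
    fderiv ℝ φ x = 0 := by
  by_contra hne
  exact hx (support_fderiv_subset ℝ (Function.mem_support.2 hne))

lemma fderiv_zero_of_eventually_one {χ : Eu n → ℝ} {x : Eu n} (hx : ∀ᶠ y in 𝓝 x, χ y = 1) :
    fderiv ℝ χ x = 0 := by
  have : χ =ᶠ[𝓝 x] fun _ => (1:ℝ) := hx
  rw [this.fderiv_eq]
  simp

/-- cutting off a weak gradient -/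
lemma cut_weak' (hn : 1 ≤ n) {Ω : Set (Eu n)} (hΩ : IsOpen Ω) {w : Eu n → ℝ}
    {G : Eu n → Eu n →L[ℝ] ℝ} (hw : Continuous w) (hG : MemLp G n volume)
    (h : WeakGrad Ω w G) {χ : Eu n → ℝ} (hχ : ContDiff ℝ ∞ χ)
    {ζ : Eu n → ℝ} (hζ : ContDiff ℝ ∞ ζ) (hc : HasCompactSupport ζ)
    (hs1 : tsupport (fun x => χ x * ζ x) ⊆ Ω) (v : Eu n) :
    ∫ x, (χ x * w x) * fderiv ℝ ζ x v = - ∫ x, ζ x * (χ x * G x v + w x * fderiv ℝ χ x v) := by
  have hGr : MemLp G n (volume.restrict Ω) := hG.restrict Ω
  have hc1 : HasCompactSupport (fun x => χ x * ζ x) := hc.mul_left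
  have hcd : ContDiff ℝ ∞ (fun x => χ x * ζ x) := hχ.mul hζ
  have e1 := h (fun x => χ x * ζ x) hcd hc1 hs1 v
  have hd : ∀ x, fderiv ℝ (fun x => χ x * ζ x) x v =
      χ x * fderiv ℝ ζ x v + ζ x * fderiv ℝ χ x v := by
    intro x
    have h1 := (hχ.differentiable (by simp)).differentiableAt (x := x)
    have h2 := (hζ.differentiable (by simp)).differentiableAt (x := x)
    rw [fderiv_fun_mul h1 h2]
    simp
  have hζd : Continuous (fun x => fderiv ℝ ζ x v) := (test_fderiv hζ hc v).1
  have hζdc : HasCompactSupport (fun x => fderiv ℝ ζ x v) := (test_fderiv hζ hc v).2.1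
  have hχd : Continuous (fun x => fderiv ℝ χ x v) :=
    (hχ.continuous_fderiv (by norm_num)).clm_apply continuous_const
  have i1 : Integrable (fun x => (χ x * w x) * fderiv ℝ ζ x v) :=
    ((hχ.continuous.mul hw).mul hζd).integrable_of_hasCompactSupport hζdc.mul_left
  have i2 : Integrable (fun x => ζ x * (w x * fderiv ℝ χ x v)) :=
    (hζ.continuous.mul (hw.mul hχd)).integrable_of_hasCompactSupport hc.mul_right
  have i3 : Integrable (fun x => (χ x * ζ x) * G x v) :=
    integrable_mul_apply hn hΩ hGr hcd.continuous hc1 hs1 v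
  have e2 : ∫ x, w x * fderiv ℝ (fun x => χ x * ζ x) x v =
      (∫ x, (χ x * w x) * fderiv ℝ ζ x v) + ∫ x, ζ x * (w x * fderiv ℝ χ x v) := by
    rw [← integral_add i1 i2]
    refine integral_congr_ae (Eventually.of_forall fun x => ?_)
    simp only [hd]
    ring
  have e3 : ∫ x, ζ x * (χ x * G x v + w x * fderiv ℝ χ x v) =
      (∫ x, (χ x * ζ x) * G x v) + ∫ x, ζ x * (w x * fderiv ℝ χ x v) := by
    rw [← integral_add i3 i2]
    refine integral_congr_ae (Eventually.of_forall fun x => ?_)
    simp only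
    ring
  rw [e3]
  rw [e2] at e1
  linarith

lemma cut_weak (hn : 1 ≤ n) {Ω : Set (Eu n)} (hΩ : IsOpen Ω) {w : Eu n → ℝ}
    {G : Eu n → Eu n →L[ℝ] ℝ} (hw : Continuous w) (hG : MemLp G n volume)
    (h : WeakGrad Ω w G) {χ : Eu n → ℝ} (hχ : ContDiff ℝ ∞ χ) (hs : tsupport χ ⊆ Ω)
    {ζ : Eu n → ℝ} (hζ : ContDiff ℝ ∞ ζ) (hc : HasCompactSupport ζ) (v : Eu n) :
    ∫ x, (χ x * w x) * fderiv ℝ ζ x v = - ∫ x, ζ x * (χ x * G x v + w x * fderiv ℝ χ x v) :=
  cut_weak' hn hΩ hw hG h hχ hζ hc ((tsupport_mul_subset_left).trans hs) v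

/-- **the chain rule** for weak gradients of continuous functions -/
theorem chain (hn : 1 ≤ n) {Ω : Set (Eu n)} (hΩ : IsOpen Ω) {w : Eu n → ℝ}
    {G : Eu n → Eu n →L[ℝ] ℝ} (hw : Continuous w) (hG : MemLp G n volume)
    (h : WeakGrad Ω w G) {ψ : ℝ → ℝ} (hψ : ContDiff ℝ 1 ψ) (hb : ∀ t, |deriv ψ t| ≤ 1) :
    WeakGrad Ω (fun x => ψ (w x)) (fun x => deriv ψ (w x) • G x) := by
  intro φ hφ hc hs v
  obtain ⟨χ, hχ, hχc, hχs, hχ1, -⟩ := cutoff hc hΩ hs
  have hGr : MemLp G n (volume.restrict Ω) := hG.restrict Ω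
  have hχd : Continuous (fun x => fderiv ℝ χ x v) :=
    (hχ.continuous_fderiv (by norm_num)).clm_apply continuous_const
  have hχ1' : ∀ x ∈ tsupport φ, ∀ᶠ y in 𝓝 x, χ y = 1 := eventually_nhdsSet_iff_forall.1 hχ1
  have i1 : Integrable (fun x => χ x * G x v) :=
    integrable_mul_apply hn hΩ hGr hχ.continuous hχc hχs v
  have i2 : Integrable (fun x => w x * fderiv ℝ χ x v) :=
    (hw.mul hχd).integrable_of_hasCompactSupport (test_fderiv hχ hχc v).2.1.mul_left
  have key := chain_global (W := fun x => χ x * w x)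
    (H := fun x => χ x * G x v + w x * fderiv ℝ χ x v) (hχ.continuous.mul hw) hχc.mul_right
    (i1.add i2) v (fun ζ hζ hζc => cut_weak hn hΩ hw hG h hχ hχs hζ hζc v) hψ hb hφ hc
  have e1 : ∀ x, ψ (χ x * w x) * fderiv ℝ φ x v = ψ (w x) * fderiv ℝ φ x v := by
    intro x
    by_cases hx : x ∈ tsupport φ
    · rw [(hχ1' x hx).self_of_nhds, one_mul]
    · rw [fderiv_zero_of_notMem hx]
      simp
  have e2 : ∀ x, φ x * (deriv ψ (χ x * w x) * (χ x * G x v + w x * fderiv ℝ χ x v)) =
      φ x * (deriv ψ (w x) • G x) v := by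
    intro x
    by_cases hx : x ∈ tsupport φ
    · rw [fderiv_zero_of_eventually_one (hχ1' x hx), (hχ1' x hx).self_of_nhds]
      simp
    · rw [image_eq_zero_of_notMem_tsupport hx]
      simp
  simp only [e1, e2] at key
  exact key

/-- gluing of weak gradients -/
theorem glue (hn : 1 ≤ n) {Ω₁ Ω₂ : Set (Eu n)} (h₁ : IsOpen Ω₁) (h₂ : IsOpen Ω₂)
    {w : Eu n → ℝ} {G : Eu n → Eu n →L[ℝ] ℝ} (hw : Continuous w) (hG : MemLp G n volume)
    (g₁ : WeakGrad Ω₁ w G) (g₂ : WeakGrad Ω₂ w G) : WeakGrad (Ω₁ ∪ Ω₂) w G := by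
  intro φ hφ hc hs v
  have hA : IsCompact (tsupport φ \ Ω₁) := hc.diff h₁
  have hAs : tsupport φ \ Ω₁ ⊆ Ω₂ := by
    intro x hx
    exact (hs hx.1).resolve_left hx.2
  obtain ⟨χ, hχ, hχc, hχs, hχ1, -⟩ := cutoff hA h₂ hAs
  have hχ1' : ∀ x ∈ tsupport φ \ Ω₁, ∀ᶠ y in 𝓝 x, χ y = 1 := eventually_nhdsSet_iff_forall.1 hχ1
  have hGu : MemLp G n (volume.restrict univ) := hG.restrict univ
  have c1 : ContDiff ℝ ∞ (fun x => (1 - χ x) * φ x) := (contDiff_const.sub hχ).mul hφ
  have c2 : ContDiff ℝ ∞ (fun x => χ x * φ x) := hχ.mul hφ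
  have k1 : HasCompactSupport (fun x => (1 - χ x) * φ x) := hc.mul_left
  have k2 : HasCompactSupport (fun x => χ x * φ x) := hc.mul_left
  have s1 : tsupport (fun x => (1 - χ x) * φ x) ⊆ Ω₁ := by
    intro x hx
    by_contra hx1
    have hxφ : x ∈ tsupport φ := tsupport_mul_subset_right hx
    have h3 := hχ1' x ⟨hxφ, hx1⟩
    have h4 : (fun x => (1 - χ x) * φ x) =ᶠ[𝓝 x] 0 := by
      filter_upwards [h3] with y hy
      simp [hy]
    exact (notMem_tsupport_iff_eventuallyEq.2 h4) hx
  have s2 : tsupport (fun x => χ x * φ x) ⊆ Ω₂ := tsupport_mul_subset_left.trans hχs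
  have e1 := g₁ _ c1 k1 s1 v
  have e2 := g₂ _ c2 k2 s2 v
  have hadd : ∀ x, fderiv ℝ φ x v =
      fderiv ℝ (fun x => (1 - χ x) * φ x) x v + fderiv ℝ (fun x => χ x * φ x) x v := by
    intro x
    have d1 := (c1.differentiable (by simp)).differentiableAt (x := x)
    have d2 := (c2.differentiable (by simp)).differentiableAt (x := x)
    have h3 : φ = fun x => (fun x => (1 - χ x) * φ x) x + (fun x => χ x * φ x) x := by
      funext x
      ring
    conv_lhs => rw [h3]
    rw [fderiv_fun_add d1 d2]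
    rfl
  have i1 := integrable_mul_fderiv isOpen_univ (hw.continuousOn) c1 k1 (subset_univ _) v
  have i2 := integrable_mul_fderiv isOpen_univ (hw.continuousOn) c2 k2 (subset_univ _) v
  have j1 := integrable_mul_apply hn isOpen_univ hGu c1.continuous k1 (subset_univ _) v
  have j2 := integrable_mul_apply hn isOpen_univ hGu c2.continuous k2 (subset_univ _) v
  have e3 : ∫ x, w x * fderiv ℝ φ x v =
      (∫ x, w x * fderiv ℝ (fun x => (1 - χ x) * φ x) x v) +
        ∫ x, w x * fderiv ℝ (fun x => χ x * φ x) x v := by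
    rw [← integral_add i1 i2]
    refine integral_congr_ae (Eventually.of_forall fun x => ?_)
    simp only
    rw [hadd x]
    ring
  have e4 : ∫ x, φ x * G x v =
      (∫ x, ((1 - χ x) * φ x) * G x v) + ∫ x, (χ x * φ x) * G x v := by
    rw [← integral_add j1 j2]
    refine integral_congr_ae (Eventually.of_forall fun x => ?_)
    simp only
    ring
  rw [e3, e4, e1, e2]
  ring

end Pool.Agent.V8H54.CN
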