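import Pool.Agent.V8H54.CN.Chain

/-!
Composition with a function which is constant on a dense open set of small measure.
-/

set_option autoImplicit false

open MeasureTheory Set Filter Topology Metric
open scoped ENNReal NNReal ContDiff Interval

namespace Pool.Agent.V8H54.CN

open Pool.Agent.TH221

variable {n : ℕ}

/-- a dense open subset of the line of small measure, for the Lebesgue measure and a given finite
measure -/
lemma small_open (μ : Measure ℝ) [IsFiniteMeasure μ] {ε : ℝ≥0∞} (hε : ε ≠ 0) :
    ∃ U : Set ℝ, IsOpen U ∧ Dense U ∧ volume U < ε ∧ μ U < ε := by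
  have hcount : {t : ℝ | μ {t} ≠ 0}.Countable := by
    have h := Measure.countable_meas_pos_of_disjoint_iUnion (μ := μ) (As := fun t : ℝ => {t})
      (fun t => measurableSet_singleton t) (fun s t hst => by
        simpa [Function.onFun] using hst)
    refine h.mono fun t ht => ?_
    exact pos_iff_ne_zero.2 ht
  have hd : Dense {t : ℝ | μ {t} ≠ 0}ᶜ := hcount.dense_compl ℝ
  obtain ⟨D, hDs, hDc, hDd⟩ := hd.exists_countable_dense_subset
  have h0 : μ D = 0 := by
    rw [← biUnion_of_singleton D]
    refine (measure_biUnion_null_iff hDc).2 fun t ht => ?_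
    have := hDs ht
    simpa using this
  have h0' : (volume : Measure ℝ) D = 0 := hDc.measure_zero _
  obtain ⟨U, hDU, hU, hUε⟩ := D.exists_isOpen_lt_of_lt (μ := μ) ε
    (by rw [h0]; exact pos_iff_ne_zero.2 hε)
  obtain ⟨V, hDV, hV, hVε⟩ := D.exists_isOpen_lt_of_lt (μ := (volume : Measure ℝ)) ε
    (by rw [h0']; exact pos_iff_ne_zero.2 hε)
  exact ⟨U ∩ V, hU.inter hV, hDd.mono (subset_inter hDU hDV),
    (measure_mono inter_subset_right).trans_lt hVε, (measure_mono inter_subset_left).trans_lt hUε⟩

/-- the primitive of the indicator function of `C` -/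
noncomputable def prim (C : Set ℝ) (t : ℝ) : ℝ := ∫ s in (0:ℝ)..t, C.indicator (fun _ => (1:ℝ)) s

lemma ind_int {C : Set ℝ} (hC : MeasurableSet C) (a b : ℝ) :
    IntervalIntegrable (C.indicator (fun _ => (1:ℝ))) volume a b :=
  (intervalIntegrable_const (c := (1:ℝ))).mono_fun' 
    ((measurable_const.indicator hC).aestronglyMeasurable)
    (Eventually.of_forall fun x => by
      by_cases hx : x ∈ C <;> simp [hx])

lemma prim_continuous {C : Set ℝ} (hC : MeasurableSet C) : Continuous (prim C) :=
  intervalIntegral.continuous_primitive (fun a b => ind_int hC a b) 0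

lemma prim_near {C : Set ℝ} (hC : MeasurableSet C) {ε : ℝ} (hε : 0 ≤ ε)
    (h : volume Cᶜ ≤ ENNReal.ofReal ε) (t : ℝ) : |t - prim C t| ≤ ε := by
  have h1 : t - prim C t = ∫ s in (0:ℝ)..t, Cᶜ.indicator (fun _ => (1:ℝ)) s := by
    unfold prim
    have h2 : (∫ s in (0:ℝ)..t, (1:ℝ)) = t := by simp
    have h3 : (∫ s in (0:ℝ)..t, (1:ℝ)) - ∫ s in (0:ℝ)..t, C.indicator (fun _ => (1:ℝ)) s =
        ∫ s in (0:ℝ)..t, Cᶜ.indicator (fun _ => (1:ℝ)) s := by
      rw [← intervalIntegral.integral_sub intervalIntegrable_const (ind_int hC 0 t)]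
      refine intervalIntegral.integral_congr fun s _ => ?_
      by_cases hs : s ∈ C <;> simp [hs]
    rw [h2] at h3
    exact h3
  rw [h1]
  have h3 : |∫ s in (0:ℝ)..t, Cᶜ.indicator (fun _ => (1:ℝ)) s| ≤
      ∫ s in Ι (0:ℝ) t, ‖Cᶜ.indicator (fun _ => (1:ℝ)) s‖ := by
    rw [← Real.norm_eq_abs]
    exact intervalIntegral.norm_integral_le_integral_norm_uIoc
  refine h3.trans ?_
  have hfin : volume Cᶜ < ⊤ := h.trans_lt ENNReal.ofReal_lt_top
  have hint : Integrable (Cᶜ.indicator (fun _ => (1:ℝ))) volume :=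
    (integrableOn_const hfin.ne).integrable_indicator hC.compl
  calc ∫ s in Ι (0:ℝ) t, ‖Cᶜ.indicator (fun _ => (1:ℝ)) s‖ 
      ≤ ∫ s, ‖Cᶜ.indicator (fun _ => (1:ℝ)) s‖ :=
        setIntegral_le_integral hint.norm (Eventually.of_forall fun s => norm_nonneg _)
    _ = ∫ s, Cᶜ.indicator (fun _ => (1:ℝ)) s := by
        refine integral_congr_ae (Eventually.of_forall fun s => ?_)
        by_cases hs : s ∈ C <;> simp [hs]
    _ = (volume Cᶜ).toReal := by
        rw [integral_indicator hC.compl, setIntegral_const]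
        simp [Measure.real]
    _ ≤ ε := by
        have := ENNReal.toReal_mono ENNReal.ofReal_ne_top h
        rwa [ENNReal.toReal_ofReal hε] at this

lemma prim_locConst {C : Set ℝ} (hC : IsClosed C) {t : ℝ} (ht : t ∉ C) :
    ∀ᶠ s in 𝓝 t, prim C s = prim C t := by
  obtain ⟨r, hr, hrC⟩ := Metric.isOpen_iff.1 hC.isOpen_compl t ht
  filter_upwards [ball_mem_nhds t hr] with s hs
  have h1 : prim C s - prim C t = ∫ x in t..s, C.indicator (fun _ => (1:ℝ)) x := by
    unfold prim
    rw [← intervalIntegral.integral_add_adjacent_intervals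
      (ind_int hC.measurableSet 0 t) (ind_int hC.measurableSet t s)]
    ring
  have h2 : ∫ x in t..s, C.indicator (fun _ => (1:ℝ)) x = ∫ x in t..s, (0:ℝ) := by
    refine intervalIntegral.integral_congr fun x hx => ?_
    have hxb : x ∈ ball t r := by
      rw [Real.ball_eq_Ioo] at hs ⊢
      rcases le_total t s with h | h
      · rw [uIcc_of_le h] at hx
        exact ⟨by linarith [hx.1], by linarith [hx.2, hs.2]⟩
      · rw [uIcc_of_ge h] at hx
        exact ⟨by linarith [hx.1, hs.1], by linarith [hx.2]⟩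
    have : x ∉ C := hrC hxb
    simp [this]
  rw [h2] at h1
  simp only [intervalIntegral.integral_zero] at h1
  linarith

/-- continuous approximations of the indicator function of `C` -/
noncomputable def kap (C : Set ℝ) (m : ℕ) (t : ℝ) : ℝ := max 0 (1 - m * infDist t C)

lemma kap_continuous (C : Set ℝ) (m : ℕ) : Continuous (kap C m) := by
  unfold kap
  exact continuous_const.max (continuous_const.sub (continuous_const.mul (continuous_infDist_pt C)))

lemma kap_mem (C : Set ℝ) (m : ℕ) (t : ℝ) : 0 ≤ kap C m t ∧ kap C m t ≤ 1 := by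
  unfold kap
  refine ⟨le_max_left _ _, max_le zero_le_one ?_⟩
  have : 0 ≤ (m:ℝ) * infDist t C := mul_nonneg (Nat.cast_nonneg m) infDist_nonneg
  linarith

lemma kap_tendsto {C : Set ℝ} (hC : IsClosed C) (hne : C.Nonempty) (t : ℝ) :
    Tendsto (fun m => kap C m t) atTop (𝓝 (C.indicator (fun _ => (1:ℝ)) t)) := by
  by_cases ht : t ∈ C
  · rw [indicator_of_mem ht]
    refine tendsto_const_nhds.congr fun m => ?_
    unfold kap
    rw [infDist_zero_of_mem ht]
    simp
  · rw [indicator_of_notMem ht]
    have h1 : 0 < infDist t C := (hC.notMem_iff_infDist_pos hne).1 ht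
    obtain ⟨M, hM⟩ := exists_nat_gt (1 / infDist t C)
    refine tendsto_const_nhds.congr' ?_
    filter_upwards [eventually_ge_atTop M] with m hm
    unfold kap
    rw [max_eq_left]
    have h2 : (1:ℝ) < m * infDist t C := by
      rw [div_lt_iff₀ h1] at hM
      refine hM.trans_le ?_
      have : (M:ℝ) ≤ m := by exact_mod_cast hm
      exact mul_le_mul_of_nonneg_right this h1.le
    linarith

noncomputable def psi (C : Set ℝ) (m : ℕ) (t : ℝ) : ℝ := ∫ s in (0:ℝ)..t, kap C m s

lemma psi_deriv (C : Set ℝ) (m : ℕ) (t : ℝ) : deriv (psi C m) t = kap C m t :=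
  (kap_continuous C m).deriv_integral _ 0 t

lemma psi_contDiff (C : Set ℝ) (m : ℕ) : ContDiff ℝ 1 (psi C m) := by
  rw [contDiff_one_iff_deriv]
  refine ⟨fun t => ?_, ?_⟩
  · exact ((kap_continuous C m).integral_hasStrictDerivAt 0 t).hasDerivAt.differentiableAt
  · rw [show deriv (psi C m) = kap C m from funext (psi_deriv C m)]
    exact kap_continuous C m

lemma psi_bound (C : Set ℝ) (m : ℕ) (t : ℝ) : |psi C m t| ≤ |t| := by
  unfold psi
  have := intervalIntegral.norm_integral_le_of_norm_le_const (a := 0) (b := t)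
    (f := kap C m) (C := 1) fun x _ => by
      rw [Real.norm_eq_abs, abs_of_nonneg (kap_mem C m x).1]
      exact (kap_mem C m x).2
  simpa using this

lemma psi_tendsto {C : Set ℝ} (hC : IsClosed C) (hne : C.Nonempty) (t : ℝ) :
    Tendsto (fun m => psi C m t) atTop (𝓝 (prim C t)) := by
  unfold psi prim
  refine intervalIntegral.tendsto_integral_filter_of_dominated_convergence (fun _ => 1) ?_ ?_ ?_ ?_
  · exact Eventually.of_forall fun m => (kap_continuous C m).aestronglyMeasurable
  · refine Eventually.of_forall fun m => Eventually.of_forall fun x _ => ?_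
    rw [Real.norm_eq_abs, abs_of_nonneg (kap_mem C m x).1]
    exact (kap_mem C m x).2
  · exact intervalIntegrable_const
  · exact Eventually.of_forall fun x _ => kap_tendsto hC hne x

/-- the weak gradient of `prim C ∘ w` -/
theorem flat_weak (hn : 1 ≤ n) {K : Set (Eu n)} (hK : IsClosed K) {w : Eu n → ℝ}
    {G : Eu n → Eu n →L[ℝ] ℝ} (hw : Continuous w) (hG : MemLp G n volume)
    (h : WeakGrad Kᶜ w G) {C : Set ℝ} (hC : IsClosed C) (hne : C.Nonempty) :
    MemLp (fun x => C.indicator (fun _ => (1:ℝ)) (w x) • G x) n volume ∧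
    WeakGrad (K ∩ w ⁻¹' C)ᶜ (fun x => prim C (w x))
      (fun x => C.indicator (fun _ => (1:ℝ)) (w x) • G x) := by
  have hm : Measurable (fun x => C.indicator (fun _ => (1:ℝ)) (w x)) :=
    (measurable_const.indicator hC.measurableSet).comp hw.measurable
  have hG' : MemLp (fun x => C.indicator (fun _ => (1:ℝ)) (w x) • G x) n volume := by
    refine MemLp.of_le hG (hm.aestronglyMeasurable.smul hG.1) (Eventually.of_forall fun x => ?_)
    by_cases hx : w x ∈ C <;> simp [hx]
  refine ⟨hG', ?_⟩
  have hprim : Continuous (fun x => prim C (w x)) :=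
    (prim_continuous hC.measurableSet).comp hw
  have g1 : WeakGrad Kᶜ (fun x => prim C (w x))
      (fun x => C.indicator (fun _ => (1:ℝ)) (w x) • G x) := by
    intro φ hφ hc hs v
    have hφd : Continuous (fun x => fderiv ℝ φ x v) := (test_fderiv hφ hc v).1
    have hφdc : HasCompactSupport (fun x => fderiv ℝ φ x v) := (test_fderiv hφ hc v).2.1
    have hGi : Integrable (fun x => φ x * G x v) :=
      integrable_mul_apply hn hK.isOpen_compl (hG.restrict _) hφ.continuous hc hs v
    have key : ∀ m : ℕ, ∫ x, psi C m (w x) * fderiv ℝ φ x v =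
        - ∫ x, kap C m (w x) * (φ x * G x v) := by
      intro m
      have h1 := chain hn hK.isOpen_compl hw hG h (psi_contDiff C m) (fun t => by
        rw [psi_deriv, abs_of_nonneg (kap_mem C m t).1]
        exact (kap_mem C m t).2) φ hφ hc hs v
      rw [h1]
      congr 1
      refine integral_congr_ae (Eventually.of_forall fun x => ?_)
      simp only [psi_deriv, smul_apply, smul_eq_mul]
      ring
    have l1 : Tendsto (fun m : ℕ => ∫ x, psi C m (w x) * fderiv ℝ φ x v) atTop
        (𝓝 (∫ x, prim C (w x) * fderiv ℝ φ x v)) := by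
      refine tendsto_integral_of_dominated_convergence (fun x => |w x * fderiv ℝ φ x v|)
        ?_ ?_ ?_ ?_
      · intro m
        exact (((psi_contDiff C m).continuous.comp hw).mul hφd).aestronglyMeasurable
      · exact ((hw.mul hφd).integrable_of_hasCompactSupport hφdc.mul_left).abs
      · intro m
        refine Eventually.of_forall fun x => ?_
        rw [Real.norm_eq_abs, abs_mul, abs_mul]
        exact mul_le_mul_of_nonneg_right (psi_bound C m _) (abs_nonneg _)
      · exact Eventually.of_forall fun x => (psi_tendsto hC hne (w x)).mul_const _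
    have l2 : Tendsto (fun m : ℕ => ∫ x, kap C m (w x) * (φ x * G x v)) atTop
        (𝓝 (∫ x, C.indicator (fun _ => (1:ℝ)) (w x) * (φ x * G x v))) := by
      refine tendsto_integral_of_dominated_convergence (fun x => |φ x * G x v|) ?_ ?_ ?_ ?_
      · intro m
        exact ((kap_continuous C m).comp hw).aestronglyMeasurable.mul hGi.1
      · exact hGi.abs
      · intro m
        refine Eventually.of_forall fun x => ?_
        rw [norm_mul, Real.norm_eq_abs, Real.norm_eq_abs, abs_of_nonneg (kap_mem C m _).1]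
        exact mul_le_of_le_one_left (abs_nonneg _) (kap_mem C m _).2
      · exact Eventually.of_forall fun x => (kap_tendsto hC hne (w x)).mul_const _
    have h6 := tendsto_nhds_unique l1 ((l2.neg).congr fun k => (key k).symm)
    rw [h6]
    congr 1
    refine integral_congr_ae (Eventually.of_forall fun x => ?_)
    simp only [smul_apply, smul_eq_mul]
    ring
  have g2 : WeakGrad (w ⁻¹' Cᶜ) (fun x => prim C (w x))
      (fun x => C.indicator (fun _ => (1:ℝ)) (w x) • G x) := by
    intro φ hφ hc hs v
    have hφd : Continuous (fun x => fderiv ℝ φ x v) := (test_fderiv hφ hc v).1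
    have hφdc : HasCompactSupport (fun x => fderiv ℝ φ x v) := (test_fderiv hφ hc v).2.1
    have hloc : ∀ x ∈ tsupport φ, (fun x => prim C (w x)) =ᶠ[𝓝 x] fun _ => prim C (w x) := by
      intro x hx
      exact (hw.tendsto x).eventually (prim_locConst hC (hs hx))
    have hz : ∀ x, fderiv ℝ (fun x => prim C (w x)) x v * φ x = 0 := by
      intro x
      by_cases hx : x ∈ tsupport φ
      · rw [(hloc x hx).fderiv_eq]
        simp
      · rw [image_eq_zero_of_notMem_tsupport hx, mul_zero]
    rw [integral_mul_fderiv_eq_neg_fderiv_mul_of_integrable]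
    · congr 1
      refine integral_congr_ae (Eventually.of_forall fun x => ?_)
      simp only [hz]
      by_cases hx : x ∈ tsupport φ
      · have h3 : w x ∉ C := hs hx
        simp [h3]
      · rw [image_eq_zero_of_notMem_tsupport hx, zero_mul]
    · simp only [hz]
      exact integrable_zero _ _ _
    · exact (hprim.mul hφd).integrable_of_hasCompactSupport hφdc.mul_left
    · exact (hprim.mul hφ.continuous).integrable_of_hasCompactSupport hc.mul_left
    · intro x hx
      exact (differentiableAt_const (prim C (w x))).congr_of_eventuallyEq (hloc x hx)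
    · intro x _
      exact (hφ.differentiable (by simp)).differentiableAt
  have g3 := glue hn hK.isOpen_compl (hC.isOpen_compl.preimage hw) hprim hG' g1 g2
  rwa [preimage_compl, ← compl_inter] at g3

/-- a closed set with dense complement is totally disconnected -/
lemma totDisc_of_dense {U : Set ℝ} (hd : Dense U) : IsTotallyDisconnected Uᶜ := by
  intro Z hZ hpre x hx y hy
  by_contra hne
  rcases lt_or_gt_of_ne hne with h | h
  · have h1 : Icc x y ⊆ Z := hpre.Icc_subset hx hy
    obtain ⟨t, ht, htU⟩ := hd.exists_mem_open isOpen_Ioo (nonempty_Ioo.2 h)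
    exact hZ (h1 (Ioo_subset_Icc_self htU)) ht
  · have h1 : Icc y x ⊆ Z := hpre.Icc_subset hy hx
    obtain ⟨t, ht, htU⟩ := hd.exists_mem_open isOpen_Ioo (nonempty_Ioo.2 h)
    exact hZ (h1 (Ioo_subset_Icc_self htU)) ht

/-- **flattening**: one may compose with a function which is constant on a dense open set without
losing the defect of integration by parts. -/
theorem flatten (hn : 1 ≤ n) {K : Set (Eu n)} (hK : IsClosed K) {w : Eu n → ℝ}
    {G : Eu n → Eu n →L[ℝ] ℝ} (hw : Continuous w) (hG : MemLp G n volume)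
    (h : WeakGrad Kᶜ w G) {φ : Eu n → ℝ} (hφ : ContDiff ℝ ∞ φ) (hc : HasCompactSupport φ)
    (v : Eu n) (hdef : ∫ x, w x * fderiv ℝ φ x v ≠ - ∫ x, φ x * G x v) :
    ∃ (C : Set ℝ) (ψ : ℝ → ℝ) (G' : Eu n → Eu n →L[ℝ] ℝ), IsClosed C ∧
      IsTotallyDisconnected C ∧ Continuous ψ ∧ MemLp G' n volume ∧
      WeakGrad (K ∩ w ⁻¹' C)ᶜ (fun x => ψ (w x)) G' ∧
      ∫ x, ψ (w x) * fderiv ℝ φ x v ≠ - ∫ x, φ x * G' x v := by
  have hφd : Continuous (fun x => fderiv ℝ φ x v) := (test_fderiv hφ hc v).1
  have hφdc : HasCompactSupport (fun x => fderiv ℝ φ x v) := (test_fderiv hφ hc v).2.1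
  have hφdi : Integrable (fun x => fderiv ℝ φ x v) := hφd.integrable_of_hasCompactSupport hφdc
  have hGu : MemLp G n (volume.restrict univ) := hG.restrict univ
  have hgi : Integrable (fun x => φ x * G x v) :=
    integrable_mul_apply hn isOpen_univ hGu hφ.continuous hc (subset_univ _) v
  set g : Eu n → ℝ := fun x => φ x * G x v with hg
  set ν : Measure (Eu n) := volume.withDensity (fun x => ENNReal.ofReal |g x|) with hν
  have hνf : IsFiniteMeasure ν := isFiniteMeasure_withDensity_ofReal hgi.abs.2
  set μ : Measure ℝ := ν.map w with hμ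
  have hμf : IsFiniteMeasure μ := Measure.isFiniteMeasure_map ν w
  set D : ℝ := |(∫ x, w x * fderiv ℝ φ x v) + ∫ x, g x| with hD
  have hDpos : 0 < D := by
    rw [hD, abs_pos]
    intro h0
    exact hdef (by linarith)
  set A : ℝ := ∫ x, |fderiv ℝ φ x v| with hA
  have hA0 : 0 ≤ A := integral_nonneg fun x => abs_nonneg _
  set ε : ℝ := min 1 (D / (2 * (A + 1))) with hε
  have hε0 : 0 < ε := by
    rw [hε]
    exact lt_min one_pos (by positivity)
  have hεD : ε * (A + 1) ≤ D / 2 := by
    have : ε ≤ D / (2 * (A + 1)) := min_le_right _ _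
    calc ε * (A + 1) ≤ D / (2 * (A + 1)) * (A + 1) :=
          mul_le_mul_of_nonneg_right this (by positivity)
      _ = D / 2 := by field_simp
  obtain ⟨U, hU, hUd, hU1, hU2⟩ := small_open μ (ε := ENNReal.ofReal ε)
    (ENNReal.ofReal_pos.2 hε0).ne'
  have hCc : IsClosed Uᶜ := hU.isClosed_compl
  have hne : (Uᶜ : Set ℝ).Nonempty := by
    rw [nonempty_compl]
    rintro rfl
    rw [Real.volume_univ] at hU1
    exact absurd hU1 (not_lt.2 le_top)
  obtain ⟨f1, f2⟩ := flat_weak hn hK hw hG h hCc hne
  refine ⟨Uᶜ, prim Uᶜ, _, hCc, totDisc_of_dense hUd, prim_continuous hCc.measurableSet, f1, f2, ?_⟩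
  intro heq
  have e0 : ∫ x, φ x * ((Uᶜ : Set ℝ).indicator (fun _ => (1:ℝ)) (w x) • G x) v =
      ∫ x, (Uᶜ : Set ℝ).indicator (fun _ => (1:ℝ)) (w x) * g x := by
    refine integral_congr_ae (Eventually.of_forall fun x => ?_)
    simp only [smul_apply, smul_eq_mul, hg]
    ring
  rw [e0] at heq
  have hprim : Continuous (fun x => prim Uᶜ (w x)) :=
    (prim_continuous hCc.measurableSet).comp hw
  have i1 : Integrable (fun x => w x * fderiv ℝ φ x v) :=
    (hw.mul hφd).integrable_of_hasCompactSupport hφdc.mul_left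
  have i2 : Integrable (fun x => prim Uᶜ (w x) * fderiv ℝ φ x v) :=
    (hprim.mul hφd).integrable_of_hasCompactSupport hφdc.mul_left
  have hmU : MeasurableSet (w ⁻¹' U) := (hU.preimage hw).measurableSet
  have hind : ∀ x, (Uᶜ : Set ℝ).indicator (fun _ => (1:ℝ)) (w x) * g x =
      (w ⁻¹' U)ᶜ.indicator g x := by
    intro x
    by_cases hx : w x ∈ U
    · have : x ∉ (w ⁻¹' U)ᶜ := fun hx' => hx' hx
      rw [indicator_of_notMem this]
      simp [hx]
    · have : x ∈ (w ⁻¹' U)ᶜ := hx
      rw [indicator_of_mem this]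
      simp [hx]
  have b1 : |∫ x, (w x - prim Uᶜ (w x)) * fderiv ℝ φ x v| ≤ ε * A := by
    calc |∫ x, (w x - prim Uᶜ (w x)) * fderiv ℝ φ x v|
        ≤ ∫ x, |(w x - prim Uᶜ (w x)) * fderiv ℝ φ x v| := abs_integral_le_integral_abs
      _ ≤ ∫ x, ε * |fderiv ℝ φ x v| := by
          refine integral_mono_of_nonneg (Eventually.of_forall fun x => abs_nonneg _)
            (hφdi.abs.const_mul ε) (Eventually.of_forall fun x => ?_)
          simp only [abs_mul]
          refine mul_le_mul_of_nonneg_right ?_ (abs_nonneg _)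
          refine prim_near hCc.measurableSet hε0.le ?_ _
          rw [compl_compl]
          exact hU1.le
      _ = ε * A := by rw [integral_const_mul]
  have b2 : |∫ x in w ⁻¹' U, g x| ≤ ε := by
    calc |∫ x in w ⁻¹' U, g x| ≤ ∫ x in w ⁻¹' U, |g x| := abs_integral_le_integral_abs
      _ = (∫⁻ x in w ⁻¹' U, ENNReal.ofReal |g x|).toReal := by
          rw [integral_eq_lintegral_of_nonneg_ae (Eventually.of_forall fun x => abs_nonneg _)
            hgi.abs.1.restrict]
      _ = (μ U).toReal := by
          rw [hμ, Measure.map_apply hw.measurable hU.measurableSet, hν, withDensity_apply _ hmU]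
      _ ≤ ε := by
          have := ENNReal.toReal_mono ENNReal.ofReal_ne_top hU2.le
          rwa [ENNReal.toReal_ofReal hε0.le] at this
  have s1 : (∫ x, w x * fderiv ℝ φ x v) = (∫ x, prim Uᶜ (w x) * fderiv ℝ φ x v) +
      ∫ x, (w x - prim Uᶜ (w x)) * fderiv ℝ φ x v := by
    have i3 : Integrable (fun x => (w x - prim Uᶜ (w x)) * fderiv ℝ φ x v) :=
      ((hw.sub hprim).mul hφd).integrable_of_hasCompactSupport hφdc.mul_left
    rw [← integral_add i2 i3]
    refine integral_congr_ae (Eventually.of_forall fun x => ?_)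
    simp only
    ring
  have s2 : ∫ x, g x = (∫ x, (Uᶜ : Set ℝ).indicator (fun _ => (1:ℝ)) (w x) * g x) +
      ∫ x in w ⁻¹' U, g x := by
    simp only [hind]
    rw [integral_indicator hmU.compl, add_comm, integral_add_compl hmU hgi]
  have s3 : (∫ x, w x * fderiv ℝ φ x v) + ∫ x, g x =
      (∫ x, (w x - prim Uᶜ (w x)) * fderiv ℝ φ x v) + ∫ x in w ⁻¹' U, g x := by
    rw [s1, s2]
    linarith
  have s4 : D ≤ ε * A + ε := by
    rw [hD, s3]
    exact (abs_add_le _ _).trans (add_le_add b1 b2)
  have : ε * (A + 1) = ε * A + ε := by ring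
  linarith

end Pool.Agent.V8H54.CN
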