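import Pool.Agent.V8H54.CN.Flat
import Pool.Agent.TH221.PartB2

/-!
Totally disconnected subsets which are not removable.
-/

set_option autoImplicit false

open MeasureTheory Set Filter Topology Metric
open scoped ENNReal NNReal ContDiff Interval

namespace Pool.Agent.V8H54.CN

open Pool.Agent.TH221

variable {n : ℕ}

/-- the image of a preconnected set under a continuous function with values in a totally
disconnected set is constant -/
lemma const_of_totDisc {w : Eu n → ℝ} (hw : Continuous w) {C : Set ℝ}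
    (hC : IsTotallyDisconnected C) {Z : Set (Eu n)} (hZ : IsPreconnected Z)
    (hZC : ∀ z ∈ Z, w z ∈ C) {x y : Eu n} (hx : x ∈ Z) (hy : y ∈ Z) : w x = w y :=
  hC (w '' Z) (by rintro _ ⟨z, hz, rfl⟩; exact hZC z hz) (hZ.image w hw.continuousOn)
    (mem_image_of_mem w hx) (mem_image_of_mem w hy)

lemma coord_continuous (i : Fin n) : Continuous (fun x : Eu n => x i) :=
  (EuclideanSpace.proj i : Eu n →L[ℝ] ℝ).continuous

/-- closed sets of positive measure contain compact totally disconnected sets of positive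
measure -/
theorem exists_td_pos {E : Set (Eu n)} (hE : IsClosed E) (h : volume E ≠ 0) :
    ∃ K ⊆ E, IsCompact K ∧ IsTotallyDisconnected K ∧ volume K ≠ 0 := by
  obtain ⟨R, hR⟩ : ∃ R : ℕ, volume (E ∩ closedBall 0 R) ≠ 0 := by
    by_contra hcon
    push Not at hcon
    refine h (measure_mono_null (t := ⋃ R : ℕ, E ∩ closedBall 0 R) ?_ (measure_iUnion_null hcon))
    intro x hx
    obtain ⟨R, hR⟩ := exists_nat_gt ‖x‖
    exact mem_iUnion.2 ⟨R, hx, by simpa using hR.le⟩
  set B : Set (Eu n) := E ∩ closedBall 0 R with hB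
  have hBc : IsCompact B := (isCompact_closedBall 0 _).inter_left hE
  have hBm : MeasurableSet B := hBc.measurableSet
  have hBfin : volume B ≠ ⊤ := hBc.measure_lt_top.ne
  have hfin : IsFiniteMeasure (volume.restrict B : Measure (Eu n)) :=
    ⟨by rw [Measure.restrict_apply_univ]; exact hBc.measure_lt_top⟩
  set ε : ℝ≥0∞ := volume B / ((n : ℝ≥0∞) + 1) with hε
  have hε0 : ε ≠ 0 := by
    rw [hε]
    exact (ENNReal.div_pos hR (by finiteness)).ne'
  have hεt : ε ≠ ⊤ := by
    rw [hε]
    refine ENNReal.div_ne_top hBfin (by positivity)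
  have hεB : ((n : ℝ≥0∞) + 1) * ε = volume B := by
    rw [hε]
    exact ENNReal.mul_div_cancel (by positivity) (by finiteness)
  choose U hU hUd hU1 hU2 using fun i : Fin n =>
    (by
      have : IsFiniteMeasure ((volume.restrict B).map (fun x : Eu n => x i)) :=
        Measure.isFiniteMeasure_map _ _
      exact small_open ((volume.restrict B).map (fun x : Eu n => x i)) hε0)
  refine ⟨B ∩ {x | ∀ i, x i ∉ U i}, fun x hx => hx.1.1, ?_, ?_, ?_⟩
  · refine hBc.inter_right ?_
    have : {x : Eu n | ∀ i, x i ∉ U i} = ⋂ i, (fun x : Eu n => x i) ⁻¹' (U i)ᶜ := by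
      ext x; simp
    rw [this]
    exact isClosed_iInter fun i => (hU i).isClosed_compl.preimage (coord_continuous i)
  · intro Z hZ hpre x hx y hy
    ext i
    exact const_of_totDisc (coord_continuous i) (totDisc_of_dense (hUd i)) hpre
      (fun z hz => (hZ hz).2 i) hx hy
  · intro h0
    have h1 : B ⊆ (B ∩ {x | ∀ i, x i ∉ U i}) ∪ ⋃ i, B ∩ (fun x : Eu n => x i) ⁻¹' (U i) := by
      intro x hx
      by_cases hxU : ∀ i, x i ∉ U i
      · exact Or.inl ⟨hx, hxU⟩
      · push Not at hxU
        obtain ⟨i, hi⟩ := hxU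
        exact Or.inr (mem_iUnion.2 ⟨i, hx, hi⟩)
    have h2 : volume B ≤ (n : ℝ≥0∞) * ε := by
      calc volume B ≤ volume ((B ∩ {x | ∀ i, x i ∉ U i}) ∪
            ⋃ i, B ∩ (fun x : Eu n => x i) ⁻¹' (U i)) := measure_mono h1
        _ ≤ volume (B ∩ {x | ∀ i, x i ∉ U i}) +
            volume (⋃ i, B ∩ (fun x : Eu n => x i) ⁻¹' (U i)) := measure_union_le _ _
        _ = volume (⋃ i, B ∩ (fun x : Eu n => x i) ⁻¹' (U i)) := by rw [h0, zero_add]
        _ ≤ ∑ i, volume (B ∩ (fun x : Eu n => x i) ⁻¹' (U i)) := by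
            exact measure_iUnion_fintype_le _ _
        _ ≤ ∑ _i : Fin n, ε := by
            refine Finset.sum_le_sum fun i _ => ?_
            have h3 := (hU2 i).le
            rw [Measure.map_apply (coord_continuous i).measurable (hU i).measurableSet,
              Measure.restrict_apply ((hU i).preimage (coord_continuous i)).measurableSet,
              inter_comm] at h3
            exact h3
        _ = (n : ℝ≥0∞) * ε := by simp
    rw [← hεB, add_mul, one_mul] at h2
    have h3 : (n : ℝ≥0∞) * ε + ε ≤ (n : ℝ≥0∞) * ε + 0 := by rwa [add_zero]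
    have h4 : (n : ℝ≥0∞) * ε ≠ ⊤ := by finiteness
    exact hε0 (le_antisymm ((ENNReal.add_le_add_iff_left h4).1 h3) zero_le)

/-- smooth functions have their derivative as weak gradient -/
lemma weakGrad_smooth {Ω : Set (Eu n)} (hΩ : IsOpen Ω) {f : Eu n → ℝ} (hf : ContDiff ℝ ∞ f) :
    WeakGrad Ω f (fderiv ℝ f) := by
  refine weakGrad_of_lip hΩ fun z _ => ?_
  have h1 : ContDiffAt ℝ 1 f z := (hf.of_le (by norm_num)).contDiffAt
  obtain ⟨K, t, ht, hK⟩ := h1.exists_lipschitzOnWith
  obtain ⟨ε, hε, hεt⟩ := Metric.mem_nhds_iff.1 ht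
  exact ⟨ε, hε, K, hK.mono hεt⟩

/-- **Main step.**  A null closed set which is not removable contains a compact totally
disconnected set which is not removable. -/
theorem case_null (hn : 1 ≤ n) {E : Set (Eu n)} (hE : IsClosed E) (hE0 : volume E = 0)
    {u : Eu n → ℝ} (hu : Continuous u) (hW : InW Eᶜ u) (hnot : ¬ InW univ u) :
    ∃ K ⊆ E, IsCompact K ∧ IsTotallyDisconnected K ∧
      ∃ u' : Eu n → ℝ, Continuous u' ∧ InW Kᶜ u' ∧ ¬ InW univ u' := by
  have hrestr : ∀ K : Set (Eu n), K ⊆ E → (volume : Measure (Eu n)).restrict Kᶜ = volume := by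
    intro K hK
    rw [Measure.restrict_eq_self_of_ae_mem]
    rw [ae_iff]
    simpa using measure_mono_null hK hE0
  obtain ⟨huLp, G₀, hG₀, hWG₀⟩ := hW
  rw [hrestr E subset_rfl] at huLp hG₀
  have hnw : ¬ WeakGrad univ u G₀ := by
    intro hw
    exact hnot ⟨by rwa [Measure.restrict_univ], G₀, by rwa [Measure.restrict_univ], hw⟩
  unfold WeakGrad at hnw
  push Not at hnw
  obtain ⟨φ, hφ, hc, -, v, hdef⟩ := hnw
  obtain ⟨χ₀, hχ₀, hχ₀c, -, hχ₀1, -⟩ := cutoff hc isOpen_univ (subset_univ _)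
  obtain ⟨χ₁, hχ₁, hχ₁c, -, hχ₁1, -⟩ := cutoff hχ₀c isOpen_univ (subset_univ _)
  have hχ₀1' : ∀ x ∈ tsupport φ, ∀ᶠ y in 𝓝 x, χ₀ y = 1 := eventually_nhdsSet_iff_forall.1 hχ₀1
  have hχ₁1' : ∀ x ∈ tsupport χ₀, χ₁ x = 1 := fun x hx =>
    (eventually_nhdsSet_iff_forall.1 hχ₁1 x hx).self_of_nhds
  -- the cut off coordinate functions
  set y : Fin n → Eu n → ℝ := fun i x => χ₁ x * x i with hy
  have hys : ∀ i, ContDiff ℝ ∞ (y i) := fun i =>
    hχ₁.mul (EuclideanSpace.proj i : Eu n →L[ℝ] ℝ).contDiff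
  have hyc : ∀ i, HasCompactSupport (y i) := fun i => hχ₁c.mul_right
  have hyLp : ∀ i, MemLp (fderiv ℝ (y i)) n (volume : Measure (Eu n)) := fun i =>
    ((hys i).continuous_fderiv (by norm_num)).memLp_of_hasCompactSupport
      ((hyc i).fderiv (𝕜 := ℝ))
  -- the induction
  have key : ∀ j : ℕ, j ≤ n → ∃ (K : Set (Eu n)) (w : Eu n → ℝ) (G : Eu n → Eu n →L[ℝ] ℝ),
      IsClosed K ∧ K ⊆ E ∧ Continuous w ∧ MemLp G n volume ∧ WeakGrad Kᶜ w G ∧
      (∫ x, w x * fderiv ℝ φ x v ≠ - ∫ x, φ x * G x v) ∧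
      ∀ Z ⊆ K ∩ tsupport χ₀, IsPreconnected Z → ∀ a ∈ Z, ∀ b ∈ Z,
        w a = w b ∧ ∀ i : Fin n, i.val < j → a i = b i := by
    intro j
    induction j with
    | zero =>
      intro _
      obtain ⟨C, ψ, G', hC, hCt, hψ, hG', hWG', hdef'⟩ :=
        flatten hn hE hu hG₀ hWG₀ hφ hc v hdef
      refine ⟨E ∩ u ⁻¹' C, fun x => ψ (u x), G', hE.inter (hC.preimage hu), inter_subset_left,
        hψ.comp hu, hG', hWG', hdef', ?_⟩
      intro Z hZ hpre a ha b hb
      refine ⟨?_, fun i hi => absurd hi (Nat.not_lt_zero _)⟩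
      have := const_of_totDisc hu hCt hpre (fun z hz => (hZ hz).1.2) ha hb
      simp only [this]
    | succ j ih =>
      intro hj
      obtain ⟨K, w, G, hK, hKE, hw, hG, hWG, hdef1, hcon⟩ := ih (by omega)
      set i₀ : Fin n := ⟨j, by omega⟩ with hi₀
      set w₁ : Eu n → ℝ := fun x => w x + 1 * y i₀ x with hw₁
      have hw₁c : Continuous w₁ := hw.add (continuous_const.mul (hys i₀).continuous)
      have hWG₁ : WeakGrad Kᶜ w₁ (fun x => G x + (1:ℝ) • fderiv ℝ (y i₀) x) :=
        hWG.add_const_mul hn hK.isOpen_compl (weakGrad_smooth hK.isOpen_compl (hys i₀))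
          hw.continuousOn (hys i₀).continuous.continuousOn (hG.restrict _)
          ((hyLp i₀).restrict _) 1
      have hG₁ : MemLp (fun x => G x + (1:ℝ) • fderiv ℝ (y i₀) x) n volume := by
        have h2 : MemLp (fun x => (1:ℝ) • fderiv ℝ (y i₀) x) n (volume : Measure (Eu n)) :=
          (hyLp i₀).const_smul (1:ℝ)
        exact MemLp.add (f := G) (g := fun x => (1:ℝ) • fderiv ℝ (y i₀) x) hG h2
      have hdef₁ : ∫ x, w₁ x * fderiv ℝ φ x v ≠
          - ∫ x, φ x * (G x + (1:ℝ) • fderiv ℝ (y i₀) x) v := by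
        have e1 := weakGrad_smooth isOpen_univ (hys i₀) φ hφ hc (subset_univ _) v
        have hφd : Continuous (fun x => fderiv ℝ φ x v) := (test_fderiv hφ hc v).1
        have hφdc : HasCompactSupport (fun x => fderiv ℝ φ x v) := (test_fderiv hφ hc v).2.1
        have a1 : Integrable (fun x => w x * fderiv ℝ φ x v) :=
          (hw.mul hφd).integrable_of_hasCompactSupport hφdc.mul_left
        have a2 : Integrable (fun x => y i₀ x * fderiv ℝ φ x v) :=
          ((hys i₀).continuous.mul hφd).integrable_of_hasCompactSupport hφdc.mul_left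
        have a3 : Integrable (fun x => φ x * G x v) :=
          integrable_mul_apply hn isOpen_univ (hG.restrict univ) hφ.continuous hc
            (subset_univ _) v
        have a4 : Integrable (fun x => φ x * fderiv ℝ (y i₀) x v) :=
          integrable_mul_apply hn isOpen_univ ((hyLp i₀).restrict univ) hφ.continuous hc
            (subset_univ _) v
        have e2 : ∫ x, w₁ x * fderiv ℝ φ x v =
            (∫ x, w x * fderiv ℝ φ x v) + ∫ x, y i₀ x * fderiv ℝ φ x v := by
          rw [← integral_add a1 a2]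
          refine integral_congr_ae (Eventually.of_forall fun x => ?_)
          simp only [hw₁]
          ring
        have e3 : ∫ x, φ x * (G x + (1:ℝ) • fderiv ℝ (y i₀) x) v =
            (∫ x, φ x * G x v) + ∫ x, φ x * fderiv ℝ (y i₀) x v := by
          rw [← integral_add a3 a4]
          refine integral_congr_ae (Eventually.of_forall fun x => ?_)
          simp only [add_apply, one_smul]
          ring
        rw [e2, e3, e1]
        intro h5
        exact hdef1 (by linarith)
      obtain ⟨C, ψ, G', hC, hCt, hψ, hG', hWG', hdef'⟩ :=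
        flatten hn hK hw₁c hG₁ hWG₁ hφ hc v hdef₁
      refine ⟨K ∩ w₁ ⁻¹' C, fun x => ψ (w₁ x), G', hK.inter (hC.preimage hw₁c),
        inter_subset_left.trans hKE, hψ.comp hw₁c, hG', hWG', hdef', ?_⟩
      intro Z hZ hpre a ha b hb
      have h1 : w₁ a = w₁ b :=
        const_of_totDisc hw₁c hCt hpre (fun z hz => (hZ hz).1.2) ha hb
      obtain ⟨h2, h3⟩ := hcon Z (fun z hz => ⟨(hZ hz).1.1, (hZ hz).2⟩) hpre a ha b hb
      refine ⟨by simp only [h1], fun i hi => ?_⟩
      rcases Nat.lt_succ_iff_lt_or_eq.1 hi with h4 | h4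
      · exact h3 i h4
      · have hi0 : i = i₀ := Fin.ext h4
        rw [hi0]
        simp only [hw₁, hy, hχ₁1' a (hZ ha).2, hχ₁1' b (hZ hb).2, h2, one_mul] at h1
        linarith
  obtain ⟨K, w, G, hK, hKE, hw, hG, hWG, hdef1, hcon⟩ := key n le_rfl
  set K' : Set (Eu n) := K ∩ tsupport χ₀ with hK'
  have hK'c : IsCompact K' := hχ₀c.isCompact.inter_left hK
  have hK'E : K' ⊆ E := inter_subset_left.trans hKE
  refine ⟨K', hK'E, hK'c, ?_, fun x => χ₀ x * w x, hχ₀.continuous.mul hw, ?_, ?_⟩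
  · intro Z hZ hpre a ha b hb
    ext i
    exact (hcon Z hZ hpre a ha b hb).2 i i.isLt
  all_goals
    set u' : Eu n → ℝ := fun x => χ₀ x * w x with hu'
    set Gf : Eu n → Eu n →L[ℝ] ℝ := fun x => χ₀ x • G x + w x • fderiv ℝ χ₀ x with hGf
    have hu'c : Continuous u' := hχ₀.continuous.mul hw
    have hu's : HasCompactSupport u' := hχ₀c.mul_right
    have hu'Lp : MemLp u' n (volume : Measure (Eu n)) :=
      hu'c.memLp_of_hasCompactSupport hu's
    have hfχ : Continuous (fderiv ℝ χ₀) := hχ₀.continuous_fderiv (by norm_num)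
    have hGfLp : MemLp Gf n (volume : Measure (Eu n)) := by
      obtain ⟨c, hc'⟩ := hχ₀c.exists_bound_of_continuous hχ₀.continuous
      refine MemLp.add (f := fun x => χ₀ x • G x) (g := fun x => w x • fderiv ℝ χ₀ x) ?_ ?_
      · refine MemLp.of_le_mul (g := G) (c := c) hG
          (hχ₀.continuous.aestronglyMeasurable.smul hG.1) (Eventually.of_forall fun x => ?_)
        rw [norm_smul]
        exact mul_le_mul_of_nonneg_right (hc' x) (norm_nonneg _)
      · have hcs : HasCompactSupport (fun x => w x • fderiv ℝ χ₀ x) := by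
          refine (hχ₀c.fderiv (𝕜 := ℝ)).mono fun x hx h0 => hx ?_
          show w x • fderiv ℝ χ₀ x = 0
          rw [h0, smul_zero]
        exact Continuous.memLp_of_hasCompactSupport (hw.smul hfχ) hcs
    have hWf : WeakGrad K'ᶜ u' Gf := by
      intro ζ hζ hζc hζs z
      have hs1 : tsupport (fun x => χ₀ x * ζ x) ⊆ Kᶜ := by
        intro x hx hxK
        exact hζs (tsupport_mul_subset_right hx) ⟨hxK, tsupport_mul_subset_left hx⟩
      have := cut_weak' hn hK.isOpen_compl hw hG hWG hχ₀ hζ hζc hs1 z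
      rw [this]
      congr 1
  · exact ⟨hu'Lp.restrict _, Gf, hGfLp.restrict _, hWf⟩
  · rintro ⟨-, G₂, hG₂, hW₂⟩
    rw [Measure.restrict_univ] at hG₂
    have hW₂' : WeakGrad K'ᶜ u' G₂ := fun ζ hζ hζc _ z => hW₂ ζ hζ hζc (subset_univ _) z
    have huniq := WeakGrad.unique hn hK'c.isClosed.isOpen_compl hW₂' hWf (hG₂.restrict _)
      (hGfLp.restrict _)
    have hae : ∀ᵐ x ∂(volume : Measure (Eu n)), x ∈ K'ᶜ := by
      rw [ae_iff]
      simpa using measure_mono_null hK'E hE0
    have hWu : WeakGrad univ u' Gf := hW₂.congr_ae (by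
      filter_upwards [huniq, hae] with x hx hxK _
      exact hx hxK)
    have e := hWu φ hφ hc (subset_univ _) v
    apply hdef1
    have e1 : ∀ x, u' x * fderiv ℝ φ x v = w x * fderiv ℝ φ x v := by
      intro x
      by_cases hx : x ∈ tsupport φ
      · simp only [hu', (hχ₀1' x hx).self_of_nhds, one_mul]
      · rw [fderiv_zero_of_notMem hx]
        simp
    have e2 : ∀ x, φ x * Gf x v = φ x * G x v := by
      intro x
      by_cases hx : x ∈ tsupport φ
      · simp only [hGf, (hχ₀1' x hx).self_of_nhds, fderiv_zero_of_eventually_one (hχ₀1' x hx)]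
        simp
      · rw [image_eq_zero_of_notMem_tsupport hx]
        simp
    simp only [e1, e2] at e
    exact e

end Pool.Agent.V8H54.CN
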